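import Mathlib
import Pool.Agent.H705R2.ABC3.Main3
import Pool.Agent.H925R.Szpiro.Pairs

/-!
# Coprime pairs with small radical: exponents `6/11` and `4 lam / 7`
-/

namespace Pool.Agent.H705R2.Szp

open Finset Pool.Agent.H328R2.ABC

/-- a finite set of pairs injects into the set of triples -/
theorem card_pairs_le (B lam : ℝ) (X : ℕ) (S : Finset (ℕ × ℕ))
    (hS : ∀ t ∈ S, 0 < t.1 ∧ 0 < t.2 ∧ Nat.Coprime t.1 t.2 ∧ t.1 + t.2 ≤ X ∧
        (rad (t.1 * t.2 * (t.1 + t.2)) : ℝ) ≤ B * ((t.1 + t.2 : ℕ) : ℝ) ^ lam) :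
    (S.card : ℝ) ≤ ((Pool.Agent.H705R2.ABC2.ExcB B lam X).ncard : ℝ) := by
  have hinj : Set.InjOn (fun t : ℕ × ℕ => (t.1, t.2, t.1 + t.2)) (S : Set (ℕ × ℕ)) := by
    rintro ⟨a, b⟩ _ ⟨a', b'⟩ _ he
    simp only [Prod.mk.injEq] at he
    exact Prod.ext he.1 he.2.1
  have h1 : (S.card : ℕ) ≤ (Pool.Agent.H705R2.ABC2.ExcB B lam X).ncard := by
    rw [← card_image_of_injOn hinj, ← Set.ncard_coe_finset]
    refine Set.ncard_le_ncard ?_ (Pool.Agent.H705R2.ABC2.excB_finite B lam X)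
    intro x hx
    rw [coe_image] at hx
    obtain ⟨t, ht, rfl⟩ := hx
    obtain ⟨h1, h2, h3, h4, h5⟩ := hS t ht
    exact ⟨h1, h2, h3, rfl, h4, h5⟩
  exact_mod_cast h1

theorem pairs611 (B lam ε : ℝ) (hε : 0 < ε) :
    ∃ C : ℝ, 0 < C ∧ ∀ X : ℕ, 1 ≤ X → ∀ S : Finset (ℕ × ℕ),
      (∀ t ∈ S, 0 < t.1 ∧ 0 < t.2 ∧ Nat.Coprime t.1 t.2 ∧ t.1 + t.2 ≤ X ∧
        (rad (t.1 * t.2 * (t.1 + t.2)) : ℝ) ≤ B * ((t.1 + t.2 : ℕ) : ℝ) ^ lam) →
      (S.card : ℝ) ≤ C * (X : ℝ) ^ (6 / 11 + max (lam - 1) 0 + ε) := by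
  obtain ⟨C, h⟩ := Pool.Agent.H705R2.ABC2.count_B B lam ε hε
  refine ⟨max C 1, by positivity, fun X hX S hS => ?_⟩
  refine (card_pairs_le B lam X S hS).trans ((h X hX).trans ?_)
  exact mul_le_mul_of_nonneg_right (le_max_left _ _) (Real.rpow_nonneg (Nat.cast_nonneg _) _)

theorem pairs47 (B lam ε : ℝ) (h0 : 0 < lam) (h1 : lam ≤ 1) (hε : 0 < ε) :
    ∃ C : ℝ, 0 < C ∧ ∀ X : ℕ, 1 ≤ X → ∀ S : Finset (ℕ × ℕ),
      (∀ t ∈ S, 0 < t.1 ∧ 0 < t.2 ∧ Nat.Coprime t.1 t.2 ∧ t.1 + t.2 ≤ X ∧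
        (rad (t.1 * t.2 * (t.1 + t.2)) : ℝ) ≤ B * ((t.1 + t.2 : ℕ) : ℝ) ^ lam) →
      (S.card : ℝ) ≤ C * (X : ℝ) ^ (4 * lam / 7 + ε) := by
  obtain ⟨C, h⟩ := Pool.Agent.H705R2.ABC3.count_B3 B lam ε h0 h1 hε
  refine ⟨max C 1, by positivity, fun X hX S hS => ?_⟩
  refine (card_pairs_le B lam X S hS).trans ((h X hX).trans ?_)
  exact mul_le_mul_of_nonneg_right (le_max_left _ _) (Real.rpow_nonneg (Nat.cast_nonneg _) _)

/-- pairs attached to the factor `m` of the twist -/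
theorem pairs_mK (B lam ε : ℝ) (hB : 1 ≤ B) (h0 : 0 < lam) (h1 : lam ≤ 1) (hε : 0 < ε) :
    ∃ C : ℝ, 0 < C ∧ ∀ X : ℕ, 1 ≤ X → ∀ m : ℕ, 1 ≤ m → ∀ S : Finset (ℕ × ℕ),
      (∀ t ∈ S, 0 < t.1 ∧ 0 < t.2 ∧ Nat.Coprime t.1 t.2 ∧ m * (t.1 + t.2) ≤ 2 * X ∧
        (rad (t.1 * t.2 * (t.1 + t.2)) : ℝ) * (m : ℝ) ^ (2 - lam) ≤
          B * ((t.1 + t.2 : ℕ) : ℝ) ^ lam) →
      (S.card : ℝ) ≤ C * (X : ℝ) ^ (4 * lam / 7 + ε) / m := by
  classical
  -- parameters
  obtain ⟨J, hJ⟩ : ∃ J : ℕ, 2 / ε ≤ (J : ℝ) := exists_nat_ge _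
  have hJ0 : (0 : ℝ) < J := lt_of_lt_of_le (by positivity) hJ
  have hJ1 : 1 / (J : ℝ) ≤ ε / 2 := by
    rw [div_le_iff₀ hJ0]
    rw [div_le_iff₀ hε] at hJ
    linarith
  set η : ℝ := min lam (ε / 2) with hη
  have hη0 : 0 < η := lt_min h0 (by positivity)
  have hηl : η ≤ lam := min_le_left _ _
  have hηε : η ≤ ε / 2 := min_le_right _ _
  let s : ℕ → ℝ := fun k => (2 - lam) * k / ((J : ℝ) - k)
  let l : ℕ → ℝ := fun k => max (lam - s k) η
  have hs0 : ∀ k ∈ range J, 0 ≤ s k := by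
    intro k hk
    rw [mem_range] at hk
    have hk' : (k : ℝ) < J := by exact_mod_cast hk
    have : 0 < (J : ℝ) - k := by linarith
    have h2 : 0 ≤ 2 - lam := by linarith
    simp only [s]
    positivity
  have hl0 : ∀ k, 0 < l k := fun k => lt_of_lt_of_le hη0 (le_max_right _ _)
  have hl1 : ∀ k ∈ range J, l k ≤ lam := by
    intro k hk
    exact max_le (by have := hs0 k hk; linarith) hηl
  have hch : ∀ k : ℕ, ∃ C : ℝ, 0 < C ∧ (k ∈ range J → ∀ X : ℕ, 1 ≤ X → ∀ S : Finset (ℕ × ℕ),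
      (∀ t ∈ S, 0 < t.1 ∧ 0 < t.2 ∧ Nat.Coprime t.1 t.2 ∧ t.1 + t.2 ≤ X ∧
        (rad (t.1 * t.2 * (t.1 + t.2)) : ℝ) ≤
          (B * 2 ^ (s k)) * ((t.1 + t.2 : ℕ) : ℝ) ^ (l k)) →
      (S.card : ℝ) ≤ C * (X : ℝ) ^ (4 * l k / 7 + ε / 2)) := by
    intro k
    by_cases hk : k ∈ range J
    · obtain ⟨C, hC, h⟩ := pairs47 (B * 2 ^ (s k)) (l k) (ε / 2) (hl0 k)
        ((hl1 k hk).trans h1) (by positivity)
      exact ⟨C, hC, fun _ => h⟩
    · exact ⟨1, one_pos, fun h => absurd h hk⟩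
  choose Cf hCf hCb using hch
  set E : ℝ := 2 + ε with hE
  set C0 : ℝ := ∑ k ∈ range J, Cf k with hC0
  have hC0nn : 0 ≤ C0 := sum_nonneg (fun k _ => (hCf k).le)
  refine ⟨C0 * 2 ^ E * (2 * B) + (4 * B + 1) ^ 2 * (4 * B), by positivity, ?_⟩
  intro X hX m hm S hS
  have hX1 : (1 : ℝ) ≤ X := by exact_mod_cast hX
  have hX0 : (0 : ℝ) < X := by linarith
  have hm1 : (1 : ℝ) ≤ m := by exact_mod_cast hm
  have hm0 : (0 : ℝ) < m := by linarith
  rcases S.eq_empty_or_nonempty with rfl | ⟨t0, ht0⟩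
  · simp only [card_empty, Nat.cast_zero]
    positivity
  -- consequences of non-emptiness
  obtain ⟨p1, p2, p3, p4, p5⟩ := hS t0 ht0
  have hm2X : m ≤ 2 * X := by
    have : m * 1 ≤ m * (t0.1 + t0.2) := Nat.mul_le_mul_left _ (by omega)
    omega
  have hkey : (m : ℝ) ^ 2 ≤ 2 * B * (X : ℝ) ^ lam := by
    have hr1 : (1 : ℝ) ≤ rad (t0.1 * t0.2 * (t0.1 + t0.2)) := by
      exact_mod_cast rad_pos _
    have q0 : 0 ≤ (m : ℝ) ^ (2 - lam) := by positivity
    have q1 : (m : ℝ) ^ (2 - lam) ≤ B * ((t0.1 + t0.2 : ℕ) : ℝ) ^ lam := by nlinarith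
    have q2 : ((t0.1 + t0.2 : ℕ) : ℝ) ≤ 2 * X / m := by
      rw [le_div_iff₀ hm0]
      have : (m : ℝ) * ((t0.1 + t0.2 : ℕ) : ℝ) ≤ 2 * X := by exact_mod_cast p4
      linarith
    have q3 : ((t0.1 + t0.2 : ℕ) : ℝ) ^ lam ≤ (2 * X / m) ^ lam :=
      Real.rpow_le_rpow (Nat.cast_nonneg _) q2 h0.le
    have q4 : (m : ℝ) ^ (2 - lam) ≤ B * (2 * X / m) ^ lam :=
      q1.trans (mul_le_mul_of_nonneg_left q3 (by linarith))
    have q5 : (m : ℝ) ^ 2 = (m : ℝ) ^ (2 - lam) * (m : ℝ) ^ lam := by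
      rw [← Real.rpow_add hm0, ← Real.rpow_natCast]
      congr 1
      push_cast
      ring
    have q6 : (2 * X / m) ^ lam * (m : ℝ) ^ lam = (2 : ℝ) ^ lam * (X : ℝ) ^ lam := by
      rw [← Real.mul_rpow (by positivity) hm0.le, div_mul_cancel₀ _ hm0.ne',
        Real.mul_rpow (by norm_num) hX0.le]
    have q7 : (2 : ℝ) ^ lam ≤ 2 := by
      calc (2 : ℝ) ^ lam ≤ 2 ^ (1 : ℝ) := Real.rpow_le_rpow_of_exponent_le (by norm_num) h1
        _ = 2 := Real.rpow_one _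
    have q8 : 0 ≤ (X : ℝ) ^ lam := by positivity
    calc (m : ℝ) ^ 2 = (m : ℝ) ^ (2 - lam) * (m : ℝ) ^ lam := q5
      _ ≤ (B * (2 * X / m) ^ lam) * (m : ℝ) ^ lam :=
          mul_le_mul_of_nonneg_right q4 (by positivity)
      _ = B * ((2 : ℝ) ^ lam * (X : ℝ) ^ lam) := by rw [mul_assoc, q6]
      _ ≤ B * (2 * (X : ℝ) ^ lam) := by gcongr
      _ = _ := by ring
  have hXl : (X : ℝ) ^ lam ≤ X := by
    calc (X : ℝ) ^ lam ≤ (X : ℝ) ^ (1 : ℝ) := Real.rpow_le_rpow_of_exponent_le hX1 h1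
      _ = X := Real.rpow_one _
  have hXθ : 1 ≤ (X : ℝ) ^ (4 * lam / 7 + ε) := Real.one_le_rpow hX1 (by positivity)
  rcases le_or_gt (X : ℝ) m with hXm | hXm
  · -- bounded case
    have b1 : (X : ℝ) ≤ 2 * B := by
      have : (X : ℝ) * X ≤ 2 * B * X := by nlinarith
      exact le_of_mul_le_mul_right (by linarith) hX0
    have b2 : (S.card : ℝ) ≤ (2 * X + 1) ^ 2 := by
      have hsub : S ⊆ range (2 * X + 1) ×ˢ range (2 * X + 1) := by
        intro t ht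
        obtain ⟨q1, q2, q3, q4, q5⟩ := hS t ht
        have : 1 * (t.1 + t.2) ≤ m * (t.1 + t.2) := Nat.mul_le_mul_right _ hm
        rw [mem_product, mem_range, mem_range]
        omega
      have := card_le_card hsub
      rw [card_product, card_range] at this
      calc (S.card : ℝ) ≤ (((2 * X + 1) * (2 * X + 1) : ℕ) : ℝ) := by exact_mod_cast this
        _ = _ := by push_cast; ring
    have b3 : (m : ℝ) ≤ 4 * B := by
      have : (m : ℝ) ≤ 2 * X := by exact_mod_cast hm2X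
      linarith
    rw [le_div_iff₀ hm0]
    have b4 : (2 * (X : ℝ) + 1) ^ 2 ≤ (4 * B + 1) ^ 2 :=
      pow_le_pow_left₀ (by positivity) (by linarith) 2
    calc (S.card : ℝ) * m ≤ (4 * B + 1) ^ 2 * (4 * B) :=
          mul_le_mul (b2.trans b4) b3 hm0.le (by positivity)
      _ ≤ (C0 * 2 ^ E * (2 * B) + (4 * B + 1) ^ 2 * (4 * B)) * 1 := by
          have : 0 ≤ C0 * 2 ^ E * (2 * B) := by positivity
          linarith
      _ ≤ _ := mul_le_mul_of_nonneg_left hXθ (by positivity)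
  -- the main case `m < X`
  have hX1' : (1 : ℝ) < X := lt_of_le_of_lt hm1 hXm
  have hlX : 0 < Real.log X := Real.log_pos hX1'
  obtain ⟨k, hkJ, hk1, hk2⟩ : ∃ k : ℕ, k < J ∧ (X : ℝ) ^ ((k : ℝ) / J) ≤ m ∧
      (m : ℝ) ≤ (X : ℝ) ^ (((k : ℝ) + 1) / J) := by
    set y : ℝ := J * (Real.log m / Real.log X) with hy
    have hy0 : 0 ≤ y := by
      have : 0 ≤ Real.log m := Real.log_nonneg hm1
      positivity
    have hyJ : y < J := by
      have : Real.log m / Real.log X < 1 := by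
        rw [div_lt_one hlX]
        exact Real.log_lt_log hm0 hXm
      rw [hy]
      nlinarith
    have hm' : (m : ℝ) = (X : ℝ) ^ (y / J) := by
      rw [hy, mul_comm, mul_div_assoc, div_self hJ0.ne', mul_one, Real.rpow_def_of_pos hX0]
      rw [mul_div_cancel₀ _ hlX.ne', Real.exp_log hm0]
    refine ⟨⌊y⌋₊, (Nat.floor_lt hy0).mpr hyJ, ?_, ?_⟩
    · rw [hm']
      apply Real.rpow_le_rpow_of_exponent_le hX1
      exact div_le_div_of_nonneg_right (Nat.floor_le hy0) hJ0.le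
    · rw [hm']
      apply Real.rpow_le_rpow_of_exponent_le hX1
      exact div_le_div_of_nonneg_right (Nat.lt_floor_add_one y).le hJ0.le
  have hkr : k ∈ range J := mem_range.mpr hkJ
  have hkJ' : (k : ℝ) < J := by exact_mod_cast hkJ
  have hJk : 0 < (J : ℝ) - k := by linarith
  have hk0 : (0 : ℝ) ≤ k := Nat.cast_nonneg _
  have hsk := hs0 k hkr
  set Y : ℕ := 2 * X / m with hY
  have hY1 : 1 ≤ Y := (Nat.one_le_div_iff hm).mpr hm2X
  have hYle : (Y : ℝ) ≤ 2 * (X / m) := by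
    have : ((2 * X / m : ℕ) : ℝ) ≤ ((2 * X : ℕ) : ℝ) / m := Nat.cast_div_le
    rw [hY]
    push_cast at this
    linarith [this, mul_div_assoc (2 : ℝ) (X : ℝ) (m : ℝ)]
  have hY0 : (0 : ℝ) ≤ Y := Nat.cast_nonneg _
  have hXm1 : 1 ≤ (X : ℝ) / m := by
    rw [le_div_iff₀ hm0]
    linarith
  have hcard := hCb k hkr Y hY1 S (fun t ht => by
    obtain ⟨q1, q2, q3, q4, q5⟩ := hS t ht
    refine ⟨q1, q2, q3, ?_, ?_⟩
    · rw [hY, Nat.le_div_iff_mul_le hm]
      linarith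
    · set w : ℝ := ((t.1 + t.2 : ℕ) : ℝ) with hw
      have hw1 : 1 ≤ w := by
        rw [hw]
        exact_mod_cast (by omega : 1 ≤ t.1 + t.2)
      have hw0 : 0 < w := by linarith
      set ρ : ℝ := (rad (t.1 * t.2 * (t.1 + t.2)) : ℝ) with hρ
      have hρ0 : 0 ≤ ρ := Nat.cast_nonneg _
      -- `w ≤ 2 X ^ (1 - k / J)`
      have e1 : w / 2 ≤ (X : ℝ) ^ (1 - (k : ℝ) / J) := by
        have h2 : w * m ≤ 2 * X := by
          have : (m : ℝ) * w ≤ 2 * X := by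
            rw [hw]
            exact_mod_cast q4
          linarith
        have h3 : w * (X : ℝ) ^ ((k : ℝ) / J) ≤ 2 * X :=
          (mul_le_mul_of_nonneg_left hk1 hw0.le).trans h2
        rw [Real.rpow_sub hX0, Real.rpow_one, le_div_iff₀ (by positivity)]
        linarith
      -- `(w / 2) ^ s ≤ m ^ (2 - lam)`
      have e2 : (w / 2) ^ (s k) ≤ (m : ℝ) ^ (2 - lam) := by
        calc (w / 2) ^ (s k) ≤ ((X : ℝ) ^ (1 - (k : ℝ) / J)) ^ (s k) :=
              Real.rpow_le_rpow (by positivity) e1 hsk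
          _ = ((X : ℝ) ^ ((k : ℝ) / J)) ^ (2 - lam) := by
              rw [← Real.rpow_mul hX0.le, ← Real.rpow_mul hX0.le]
              congr 1
              simp only [s]
              field_simp
          _ ≤ _ := Real.rpow_le_rpow (by positivity) hk1 (by linarith)
      have e3 : ρ * (w / 2) ^ (s k) ≤ B * w ^ lam :=
        (mul_le_mul_of_nonneg_left e2 hρ0).trans q5
      have e4 : (w / 2) ^ (s k) = w ^ (s k) / 2 ^ (s k) :=
        Real.div_rpow hw0.le (by norm_num) _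
      have e5 : ρ ≤ B * 2 ^ (s k) * w ^ (lam - s k) := by
        rw [e4] at e3
        rw [Real.rpow_sub hw0]
        have h3 : (0 : ℝ) < w ^ (s k) := by positivity
        have h4 : (0 : ℝ) < 2 ^ (s k) := by positivity
        rw [mul_div_assoc', le_div_iff₀ h3]
        rw [mul_div_assoc', div_le_iff₀ h4] at e3
        calc ρ * w ^ s k ≤ B * w ^ lam * 2 ^ s k := e3
          _ = _ := by ring
      refine e5.trans ?_
      apply mul_le_mul_of_nonneg_left _ (by positivity)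
      exact Real.rpow_le_rpow_of_exponent_le hw1 (le_max_left _ _))
  have hC : Cf k ≤ C0 := single_le_sum (f := Cf) (fun k _ => (hCf k).le) hkr
  set P : ℝ := 4 * l k / 7 + ε / 2 with hP
  have hP0 : 0 ≤ P := by
    have := hl0 k
    positivity
  have hPE : P ≤ E := by
    have := (hl1 k hkr).trans h1
    rw [hP, hE]
    linarith
  have hYP : (Y : ℝ) ^ P ≤ 2 ^ E * ((X : ℝ) / m) ^ P := by
    calc (Y : ℝ) ^ P ≤ (2 * ((X : ℝ) / m)) ^ P := Real.rpow_le_rpow hY0 hYle hP0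
      _ = 2 ^ P * ((X : ℝ) / m) ^ P := Real.mul_rpow (by norm_num) (by positivity)
      _ ≤ 2 ^ E * ((X : ℝ) / m) ^ P := by
          apply mul_le_mul_of_nonneg_right _ (by positivity)
          exact Real.rpow_le_rpow_of_exponent_le (by norm_num) hPE
  -- the key inequality
  have hkey2 : ((X : ℝ) / m) ^ P * m ≤ (2 * B) * (X : ℝ) ^ (4 * lam / 7 + ε) := by
    rcases le_total (lam - s k) η with hc | hc
    · -- `l k = η`
      have hlk : l k = η := max_eq_right hc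
      have a1 : ((X : ℝ) / m) ^ P ≤ (X : ℝ) ^ ε := by
        calc ((X : ℝ) / m) ^ P ≤ (X : ℝ) ^ P :=
              Real.rpow_le_rpow (by positivity) (div_le_self hX0.le hm1) hP0
          _ ≤ (X : ℝ) ^ ε := by
              apply Real.rpow_le_rpow_of_exponent_le hX1
              rw [hP, hlk]
              linarith
      have a2 : (m : ℝ) ≤ 2 * B * (X : ℝ) ^ (lam / 2) := by
        have h2 : (m : ℝ) ^ 2 ≤ (2 * B * (X : ℝ) ^ (lam / 2)) ^ 2 := by
          have h3 : ((X : ℝ) ^ (lam / 2)) ^ 2 = (X : ℝ) ^ lam := by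
            rw [← Real.rpow_natCast, ← Real.rpow_mul hX0.le]
            congr 1
            push_cast
            ring
          rw [mul_pow, h3]
          have h4 : 2 * B ≤ (2 * B) ^ 2 := by nlinarith
          exact hkey.trans (mul_le_mul_of_nonneg_right h4 (by positivity))
        exact le_of_pow_le_pow_left₀ (by norm_num) (by positivity) h2
      calc ((X : ℝ) / m) ^ P * m ≤ (X : ℝ) ^ ε * (2 * B * (X : ℝ) ^ (lam / 2)) :=
            mul_le_mul a1 a2 hm0.le (by positivity)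
        _ = 2 * B * (X : ℝ) ^ (lam / 2 + ε) := by rw [Real.rpow_add hX0]; ring
        _ ≤ _ := by
            apply mul_le_mul_of_nonneg_left _ (by positivity)
            exact Real.rpow_le_rpow_of_exponent_le hX1 (by linarith)
    · have hlk : l k = lam - s k := max_eq_left hc
      have a1 : (X : ℝ) / m ≤ (X : ℝ) ^ (1 - (k : ℝ) / J) := by
        rw [Real.rpow_sub hX0, Real.rpow_one]
        exact div_le_div_of_nonneg_left hX0.le (by positivity) hk1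
      have a2 : ((X : ℝ) / m) ^ P ≤ (X : ℝ) ^ ((1 - (k : ℝ) / J) * P) := by
        rw [Real.rpow_mul hX0.le]
        exact Real.rpow_le_rpow (by positivity) a1 hP0
      have a3 : (1 - (k : ℝ) / J) * P + ((k : ℝ) + 1) / J ≤ 4 * lam / 7 + ε := by
        have h2 : (1 - (k : ℝ) / J) * (lam - s k) = lam - 2 * (k / J) := by
          simp only [s]
          field_simp
          ring
        have h3 : 0 ≤ (k : ℝ) / J := by positivity
        have h4 : (1 - (k : ℝ) / J) * P = 4 / 7 * ((1 - (k : ℝ) / J) * (lam - s k)) +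
            (1 - (k : ℝ) / J) * (ε / 2) := by
          rw [hP, hlk]
          ring
        rw [h4, h2, add_div]
        nlinarith
      calc ((X : ℝ) / m) ^ P * m ≤
            (X : ℝ) ^ ((1 - (k : ℝ) / J) * P) * (X : ℝ) ^ (((k : ℝ) + 1) / J) :=
            mul_le_mul a2 hk2 hm0.le (by positivity)
        _ = (X : ℝ) ^ ((1 - (k : ℝ) / J) * P + ((k : ℝ) + 1) / J) := by
            rw [Real.rpow_add hX0]
        _ ≤ (X : ℝ) ^ (4 * lam / 7 + ε) := Real.rpow_le_rpow_of_exponent_le hX1 a3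
        _ ≤ (2 * B) * (X : ℝ) ^ (4 * lam / 7 + ε) :=
            le_mul_of_one_le_left (by positivity) (by linarith)
  rw [le_div_iff₀ hm0]
  calc (S.card : ℝ) * m ≤ (Cf k * (Y : ℝ) ^ P) * m :=
        mul_le_mul_of_nonneg_right hcard hm0.le
    _ ≤ (C0 * (2 ^ E * ((X : ℝ) / m) ^ P)) * m := by
        apply mul_le_mul_of_nonneg_right _ hm0.le
        exact mul_le_mul hC hYP (by positivity) hC0nn
    _ = C0 * 2 ^ E * (((X : ℝ) / m) ^ P * m) := by ring
    _ ≤ C0 * 2 ^ E * ((2 * B) * (X : ℝ) ^ (4 * lam / 7 + ε)) :=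
        mul_le_mul_of_nonneg_left hkey2 (by positivity)
    _ = (C0 * 2 ^ E * (2 * B)) * (X : ℝ) ^ (4 * lam / 7 + ε) := by ring
    _ ≤ _ := by
        apply mul_le_mul_of_nonneg_right _ (by positivity)
        have : 0 ≤ (4 * B + 1) ^ 2 * (4 * B) := by positivity
        linarith

end Pool.Agent.H705R2.Szp
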