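import Pool.Agent.H925R.Szpiro.SemiCount
import Pool.Agent.H705R2.Szp.Pairs2

/-!
Semistable curves with full 2-torsion (helper925's reduction with the bounds `4 lam / 7` for all
`lam ≤ 1` and `6/11 + max (lam - 1) 0`).
-/

set_option autoImplicit false

namespace Pool.Agent.H705R2.Szp

open Finset Pool.Agent.H328R2.ABC Pool.Agent.H925R.Szpiro

theorem semiK (κ c₀ ε : ℝ) (hκ1 : 6 ≤ κ) (hc₀ : 0 < c₀) (hε : 0 < ε) :
    ∃ C : ℝ, 0 < C ∧ ∀ X : ℕ, 1 ≤ X →
      (Exc κ c₀ X).Finite ∧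
      ((Exc κ c₀ X).ncard : ℝ) ≤ C * (X : ℝ) ^ (24 / (7 * κ) + ε) := by
  classical
  have hκ : 0 < κ := by linarith
  have hμ0 : 0 < 6 / κ := by positivity
  have hμ1 : 6 / κ ≤ 1 := by
    rw [div_le_one hκ]
    exact hκ1
  have hμ7 : 24 / (7 * κ) = 4 * (6 / κ) / 7 := by
    field_simp
    ring
  rw [hμ7]
  set B : ℝ := 2 * c₀⁻¹ ^ (1 / κ) with hB
  obtain ⟨C, hC, h⟩ := pairs_mK (max 1 B) (6 / κ) ε (le_max_left _ _) hμ0 hμ1 hε
  set θ : ℝ := 4 * (6 / κ) / 7 + ε with hθ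
  refine ⟨4 * C, by positivity, fun X hX => ?_⟩
  set T : Finset (ℕ × ℕ) := (range (2 * X + 1) ×ˢ range (2 * X + 1)).filter (fun t =>
    0 < t.1 ∧ 0 < t.2 ∧ Nat.Coprime t.1 t.2 ∧ t.1 + t.2 ≤ 2 * X ∧
        (rad (t.1 * t.2 * (t.1 + t.2)) : ℝ) ≤ B * ((t.1 + t.2 : ℕ) : ℝ) ^ (6 / κ)) with hT
  set A : Finset (ℕ × ℤ) := ({1, 2} : Finset ℕ) ×ˢ ({1, -1} : Finset ℤ) with hA
  have hAcard : A.card ≤ 4 := by
    rw [hA, card_product]
    have h1 : ({1, 2} : Finset ℕ).card ≤ 2 := card_le_two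
    have h2 : ({1, -1} : Finset ℤ).card ≤ 2 := card_le_two
    nlinarith
  have hsub : Exc κ c₀ X ⊆ (((A ×ˢ T).image inv : Finset (ℤ × ℤ)) : Set (ℤ × ℤ)) := by
    rintro q ⟨W, hΔ, hc, hf, rfl, h4, h6, hbig⟩
    obtain ⟨g, u, v, hg, hu, hv, hcop, E4, ED⟩ := semi_pair W hΔ hc hf
    rw [mem_coe, mem_image]
    -- the sign
    obtain ⟨s, hs, hs6⟩ : ∃ s : ℤ, s ∈ ({1, -1} : Finset ℤ) ∧ W.c₆ = s * |W.c₆| := by
      rcases le_total 0 W.c₆ with h0 | h0
      · exact ⟨1, by simp, by rw [abs_of_nonneg h0]; ring⟩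
      · exact ⟨-1, by simp, by rw [abs_of_nonpos h0]; ring⟩
    refine ⟨((g, s), (u, v)), ?_, ?_⟩
    · rw [mem_product]
      constructor
      · rw [hA, mem_product]
        refine ⟨?_, hs⟩
        rcases hg with rfl | rfl <;> simp
      · -- size
        have hX0 : (0 : ℤ) ≤ X := by positivity
        have hc4nn : 0 ≤ W.c₄ := by rw [E4]; positivity
        have h4' : W.c₄ ≤ (X : ℤ) ^ 2 := by
          rw [abs_of_nonneg hc4nn] at h4
          by_contra hcon
          push Not at hcon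
          have : ((X : ℤ) ^ 2) ^ 3 < W.c₄ ^ 3 :=
            pow_lt_pow_left₀ hcon (by positivity) (by norm_num)
          nlinarith [this, h4]
        have hg1 : (1 : ℤ) ≤ (g : ℤ) ^ 2 := by
          rcases hg with rfl | rfl <;> norm_num
        have hQ : (u : ℤ) ^ 2 + u * v + (v : ℤ) ^ 2 ≤ (X : ℤ) ^ 2 := by
          have h0 : (0 : ℤ) ≤ (u : ℤ) ^ 2 + u * v + (v : ℤ) ^ 2 := by positivity
          nlinarith [mul_le_mul_of_nonneg_right hg1 h0]
        have hsum : u + v ≤ 2 * X := by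
          by_contra hcon
          push Not at hcon
          have h1 : (2 * (X : ℤ)) < u + v := by exact_mod_cast hcon
          have h2 : (2 * (X : ℤ)) ^ 2 < (u + v : ℤ) ^ 2 :=
            pow_lt_pow_left₀ h1 (by positivity) (by norm_num)
          nlinarith [sq_nonneg ((u : ℤ) - v)]
        rw [hT, mem_filter, mem_product, mem_range, mem_range]
        refine ⟨⟨by simp only; omega, by simp only; omega⟩, hu, hv, hcop, hsum, ?_⟩
        -- the radical
        simp only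
        set n : ℕ := u * v * (u + v) with hn
        have hD' : 256 * W.Δ = (g : ℤ) ^ 6 * (n : ℤ) ^ 2 := by
          rw [ED, hn]; push_cast; ring
        have hr : (rad n : ℝ) ≤ 2 * (cond W : ℝ) := by
          exact_mod_cast rad_le_two_cond W hΔ g n hD'
        set c : ℝ := ((u + v : ℕ) : ℝ) with hcdef
        have hc1 : 1 ≤ c := by
          rw [hcdef]
          exact_mod_cast (by omega : 1 ≤ u + v)
        have hnle : (n : ℝ) ≤ c ^ 3 := by
          have : n ≤ (u + v) ^ 3 := by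
            rw [hn]
            calc u * v * (u + v) ≤ (u + v) * (u + v) * (u + v) := by gcongr <;> omega
              _ = _ := by ring
          rw [hcdef]
          exact_mod_cast this
        have hΔle : |(W.Δ : ℝ)| ≤ c ^ 6 := by
          have h1 : 256 * (W.Δ : ℝ) = (g : ℝ) ^ 6 * (n : ℝ) ^ 2 := by exact_mod_cast hD'
          have hg6 : (g : ℝ) ^ 6 ≤ 64 := by
            rcases hg with rfl | rfl <;> norm_num
          have hn2 : (n : ℝ) ^ 2 ≤ (c ^ 3) ^ 2 := by gcongr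
          have hpos : 0 ≤ (W.Δ : ℝ) := by
            have : (0 : ℝ) ≤ (g : ℝ) ^ 6 * (n : ℝ) ^ 2 := by positivity
            linarith
          rw [abs_of_nonneg hpos]
          have h2 : (g : ℝ) ^ 6 * (n : ℝ) ^ 2 ≤ 64 * (c ^ 3) ^ 2 := by gcongr
          nlinarith [pow_pos (by linarith : 0 < c) 6]
        have hcond : (cond W : ℝ) ^ κ ≤ c₀⁻¹ * c ^ 6 := by
          have h1 : c₀ * (cond W : ℝ) ^ κ ≤ c ^ 6 := hbig.le.trans hΔle
          rw [inv_mul_eq_div, le_div_iff₀ hc₀]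
          linarith
        have hcond0 : (0 : ℝ) ≤ (cond W : ℝ) := Nat.cast_nonneg _
        have hcond2 : (cond W : ℝ) ≤ c₀⁻¹ ^ (1 / κ) * c ^ (6 / κ) := by
          have h1 : ((cond W : ℝ) ^ κ) ^ (1 / κ) ≤ (c₀⁻¹ * c ^ 6) ^ (1 / κ) :=
            Real.rpow_le_rpow (by positivity) hcond (by positivity)
          rw [← Real.rpow_mul hcond0, mul_one_div_cancel hκ.ne', Real.rpow_one,
            Real.mul_rpow (by positivity) (by positivity)] at h1
          have h2 : (c ^ 6) ^ (1 / κ) = c ^ (6 / κ) := by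
            rw [← Real.rpow_natCast, ← Real.rpow_mul (by linarith)]
            congr 1
            push_cast
            ring
          rw [h2] at h1
          exact h1
        calc (rad n : ℝ) ≤ 2 * (cond W : ℝ) := hr
          _ ≤ 2 * (c₀⁻¹ ^ (1 / κ) * c ^ (6 / κ)) := by linarith
          _ = B * c ^ (6 / κ) := by rw [hB]; ring
    · unfold inv
      simp only
      refine Prod.ext E4.symm ?_
      simp only
      rw [← E4]
      have hΔ' : ((g : ℤ) ^ 6 * ((u : ℤ) * v * (u + v)) ^ 2) / 256 = W.Δ := by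
        rw [← ED]
        exact Int.mul_ediv_cancel_left _ (by norm_num)
      rw [hΔ']
      have hrel := W.c_relation
      have h7 : W.c₄ ^ 3 - 1728 * W.Δ = |W.c₆| ^ 2 := by rw [sq_abs]; linarith
      have h8 : (|W.c₆| ^ 2).toNat = (W.c₆.natAbs) ^ 2 := by
        rw [Int.abs_eq_natAbs, ← Nat.cast_pow, Int.toNat_natCast]
      rw [h7, h8, Nat.sqrt_eq', ← Int.abs_eq_natAbs]
      exact hs6.symm
  have hfin : (Exc κ c₀ X).Finite := Set.Finite.subset (Finset.finite_toSet _) hsub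
  refine ⟨hfin, ?_⟩
  have hTc : (T.card : ℝ) ≤ C * (X : ℝ) ^ θ := by
    have h0 := h X hX 1 le_rfl T (fun t ht => by
      rw [hT, mem_filter] at ht
      obtain ⟨q1, q2, q3, q4, q5⟩ := ht.2
      refine ⟨q1, q2, q3, by omega, ?_⟩
      rw [Nat.cast_one, Real.one_rpow, mul_one]
      exact q5.trans (mul_le_mul_of_nonneg_right (le_max_right _ _)
        (Real.rpow_nonneg (Nat.cast_nonneg _) _)))
    rw [Nat.cast_one, div_one] at h0
    exact h0
  have h1 : (Exc κ c₀ X).ncard ≤ ((A ×ˢ T).image inv).card := by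
    rw [← Set.ncard_coe_finset]
    exact Set.ncard_le_ncard hsub (Finset.finite_toSet _)
  have h2 : ((A ×ˢ T).image inv).card ≤ 4 * T.card :=
    card_image_le.trans (by rw [card_product]; exact Nat.mul_le_mul_right _ hAcard)
  have h3 : ((Exc κ c₀ X).ncard : ℝ) ≤ 4 * T.card := by exact_mod_cast h1.trans h2
  calc ((Exc κ c₀ X).ncard : ℝ) ≤ 4 * T.card := h3
    _ ≤ 4 * (C * (X : ℝ) ^ θ) := by linarith
    _ = _ := by ring

theorem semi611 (κ c₀ ε : ℝ) (hκ : 0 < κ) (hc₀ : 0 < c₀) (hε : 0 < ε) :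
    ∃ C : ℝ, 0 < C ∧ ∀ X : ℕ, 1 ≤ X →
      (Exc κ c₀ X).Finite ∧
      ((Exc κ c₀ X).ncard : ℝ) ≤ C * (X : ℝ) ^ (6 / 11 + max (6 / κ - 1) 0 + ε) := by
  classical
  set B : ℝ := 2 * c₀⁻¹ ^ (1 / κ) with hB
  obtain ⟨C, hC, h⟩ := pairs611 B (6 / κ) ε hε
  set θ : ℝ := 6 / 11 + max (6 / κ - 1) 0 + ε with hθ
  refine ⟨4 * (C * 2 ^ θ), by positivity, fun X hX => ?_⟩
  set T : Finset (ℕ × ℕ) := (range (2 * X + 1) ×ˢ range (2 * X + 1)).filter (fun t =>
    0 < t.1 ∧ 0 < t.2 ∧ Nat.Coprime t.1 t.2 ∧ t.1 + t.2 ≤ 2 * X ∧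
        (rad (t.1 * t.2 * (t.1 + t.2)) : ℝ) ≤ B * ((t.1 + t.2 : ℕ) : ℝ) ^ (6 / κ)) with hT
  set A : Finset (ℕ × ℤ) := ({1, 2} : Finset ℕ) ×ˢ ({1, -1} : Finset ℤ) with hA
  have hAcard : A.card ≤ 4 := by
    rw [hA, card_product]
    have h1 : ({1, 2} : Finset ℕ).card ≤ 2 := card_le_two
    have h2 : ({1, -1} : Finset ℤ).card ≤ 2 := card_le_two
    nlinarith
  have hsub : Exc κ c₀ X ⊆ (((A ×ˢ T).image inv : Finset (ℤ × ℤ)) : Set (ℤ × ℤ)) := by
    rintro q ⟨W, hΔ, hc, hf, rfl, h4, h6, hbig⟩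
    obtain ⟨g, u, v, hg, hu, hv, hcop, E4, ED⟩ := semi_pair W hΔ hc hf
    rw [mem_coe, mem_image]
    -- the sign
    obtain ⟨s, hs, hs6⟩ : ∃ s : ℤ, s ∈ ({1, -1} : Finset ℤ) ∧ W.c₆ = s * |W.c₆| := by
      rcases le_total 0 W.c₆ with h0 | h0
      · exact ⟨1, by simp, by rw [abs_of_nonneg h0]; ring⟩
      · exact ⟨-1, by simp, by rw [abs_of_nonpos h0]; ring⟩
    refine ⟨((g, s), (u, v)), ?_, ?_⟩
    · rw [mem_product]
      constructor
      · rw [hA, mem_product]
        refine ⟨?_, hs⟩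
        rcases hg with rfl | rfl <;> simp
      · -- size
        have hX0 : (0 : ℤ) ≤ X := by positivity
        have hc4nn : 0 ≤ W.c₄ := by rw [E4]; positivity
        have h4' : W.c₄ ≤ (X : ℤ) ^ 2 := by
          rw [abs_of_nonneg hc4nn] at h4
          by_contra hcon
          push Not at hcon
          have : ((X : ℤ) ^ 2) ^ 3 < W.c₄ ^ 3 :=
            pow_lt_pow_left₀ hcon (by positivity) (by norm_num)
          nlinarith [this, h4]
        have hg1 : (1 : ℤ) ≤ (g : ℤ) ^ 2 := by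
          rcases hg with rfl | rfl <;> norm_num
        have hQ : (u : ℤ) ^ 2 + u * v + (v : ℤ) ^ 2 ≤ (X : ℤ) ^ 2 := by
          have h0 : (0 : ℤ) ≤ (u : ℤ) ^ 2 + u * v + (v : ℤ) ^ 2 := by positivity
          nlinarith [mul_le_mul_of_nonneg_right hg1 h0]
        have hsum : u + v ≤ 2 * X := by
          by_contra hcon
          push Not at hcon
          have h1 : (2 * (X : ℤ)) < u + v := by exact_mod_cast hcon
          have h2 : (2 * (X : ℤ)) ^ 2 < (u + v : ℤ) ^ 2 :=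
            pow_lt_pow_left₀ h1 (by positivity) (by norm_num)
          nlinarith [sq_nonneg ((u : ℤ) - v)]
        rw [hT, mem_filter, mem_product, mem_range, mem_range]
        refine ⟨⟨by simp only; omega, by simp only; omega⟩, hu, hv, hcop, hsum, ?_⟩
        -- the radical
        simp only
        set n : ℕ := u * v * (u + v) with hn
        have hD' : 256 * W.Δ = (g : ℤ) ^ 6 * (n : ℤ) ^ 2 := by
          rw [ED, hn]; push_cast; ring
        have hr : (rad n : ℝ) ≤ 2 * (cond W : ℝ) := by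
          exact_mod_cast rad_le_two_cond W hΔ g n hD'
        set c : ℝ := ((u + v : ℕ) : ℝ) with hcdef
        have hc1 : 1 ≤ c := by
          rw [hcdef]
          exact_mod_cast (by omega : 1 ≤ u + v)
        have hnle : (n : ℝ) ≤ c ^ 3 := by
          have : n ≤ (u + v) ^ 3 := by
            rw [hn]
            calc u * v * (u + v) ≤ (u + v) * (u + v) * (u + v) := by gcongr <;> omega
              _ = _ := by ring
          rw [hcdef]
          exact_mod_cast this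
        have hΔle : |(W.Δ : ℝ)| ≤ c ^ 6 := by
          have h1 : 256 * (W.Δ : ℝ) = (g : ℝ) ^ 6 * (n : ℝ) ^ 2 := by exact_mod_cast hD'
          have hg6 : (g : ℝ) ^ 6 ≤ 64 := by
            rcases hg with rfl | rfl <;> norm_num
          have hn2 : (n : ℝ) ^ 2 ≤ (c ^ 3) ^ 2 := by gcongr
          have hpos : 0 ≤ (W.Δ : ℝ) := by
            have : (0 : ℝ) ≤ (g : ℝ) ^ 6 * (n : ℝ) ^ 2 := by positivity
            linarith
          rw [abs_of_nonneg hpos]
          have h2 : (g : ℝ) ^ 6 * (n : ℝ) ^ 2 ≤ 64 * (c ^ 3) ^ 2 := by gcongr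
          nlinarith [pow_pos (by linarith : 0 < c) 6]
        have hcond : (cond W : ℝ) ^ κ ≤ c₀⁻¹ * c ^ 6 := by
          have h1 : c₀ * (cond W : ℝ) ^ κ ≤ c ^ 6 := hbig.le.trans hΔle
          rw [inv_mul_eq_div, le_div_iff₀ hc₀]
          linarith
        have hcond0 : (0 : ℝ) ≤ (cond W : ℝ) := Nat.cast_nonneg _
        have hcond2 : (cond W : ℝ) ≤ c₀⁻¹ ^ (1 / κ) * c ^ (6 / κ) := by
          have h1 : ((cond W : ℝ) ^ κ) ^ (1 / κ) ≤ (c₀⁻¹ * c ^ 6) ^ (1 / κ) :=
            Real.rpow_le_rpow (by positivity) hcond (by positivity)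
          rw [← Real.rpow_mul hcond0, mul_one_div_cancel hκ.ne', Real.rpow_one,
            Real.mul_rpow (by positivity) (by positivity)] at h1
          have h2 : (c ^ 6) ^ (1 / κ) = c ^ (6 / κ) := by
            rw [← Real.rpow_natCast, ← Real.rpow_mul (by linarith)]
            congr 1
            push_cast
            ring
          rw [h2] at h1
          exact h1
        calc (rad n : ℝ) ≤ 2 * (cond W : ℝ) := hr
          _ ≤ 2 * (c₀⁻¹ ^ (1 / κ) * c ^ (6 / κ)) := by linarith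
          _ = B * c ^ (6 / κ) := by rw [hB]; ring
    · unfold inv
      simp only
      refine Prod.ext E4.symm ?_
      simp only
      rw [← E4]
      have hΔ' : ((g : ℤ) ^ 6 * ((u : ℤ) * v * (u + v)) ^ 2) / 256 = W.Δ := by
        rw [← ED]
        exact Int.mul_ediv_cancel_left _ (by norm_num)
      rw [hΔ']
      have hrel := W.c_relation
      have h7 : W.c₄ ^ 3 - 1728 * W.Δ = |W.c₆| ^ 2 := by rw [sq_abs]; linarith
      have h8 : (|W.c₆| ^ 2).toNat = (W.c₆.natAbs) ^ 2 := by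
        rw [Int.abs_eq_natAbs, ← Nat.cast_pow, Int.toNat_natCast]
      rw [h7, h8, Nat.sqrt_eq', ← Int.abs_eq_natAbs]
      exact hs6.symm
  have hfin : (Exc κ c₀ X).Finite := Set.Finite.subset (Finset.finite_toSet _) hsub
  refine ⟨hfin, ?_⟩
  have hTc : (T.card : ℝ) ≤ C * ((2 * X : ℕ) : ℝ) ^ θ := by
    refine h (2 * X) (by omega) T (fun t ht => ?_)
    rw [hT, mem_filter] at ht
    exact ht.2
  have h1 : (Exc κ c₀ X).ncard ≤ ((A ×ˢ T).image inv).card := by
    rw [← Set.ncard_coe_finset]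
    exact Set.ncard_le_ncard hsub (Finset.finite_toSet _)
  have h2 : ((A ×ˢ T).image inv).card ≤ 4 * T.card :=
    card_image_le.trans (by rw [card_product]; exact Nat.mul_le_mul_right _ hAcard)
  have h3 : ((Exc κ c₀ X).ncard : ℝ) ≤ 4 * T.card := by exact_mod_cast h1.trans h2
  have h4 : ((2 * X : ℕ) : ℝ) ^ θ = 2 ^ θ * (X : ℝ) ^ θ := by
    push_cast
    exact Real.mul_rpow (by norm_num) (by positivity)
  rw [h4] at hTc
  calc ((Exc κ c₀ X).ncard : ℝ) ≤ 4 * T.card := h3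
    _ ≤ 4 * (C * (2 ^ θ * (X : ℝ) ^ θ)) := by linarith
    _ = _ := by ring

end Pool.Agent.H705R2.Szp
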